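import Mathlib

set_option autoImplicit false
open MeasureTheory Filter Topology

namespace Pool.Agent.OverRec

variable {X : Type} [MeasurableSpace X] {μ : Measure X} [IsProbabilityMeasure μ] {T : X → X}

/-- The real vector space spanned by the indicator functions of measurable sets. -/
def V (X : Type) [MeasurableSpace X] : Submodule ℝ (X → ℝ) :=
  Submodule.span ℝ {f | ∃ A : Set X, MeasurableSet A ∧ f = A.indicator (fun _ => (1 : ℝ))}

lemma ind_mem_V {A : Set X} (hA : MeasurableSet A) : A.indicator (fun _ => (1 : ℝ)) ∈ V X :=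
  Submodule.subset_span ⟨A, hA, rfl⟩

lemma V_meas {f : X → ℝ} (hf : f ∈ V X) : Measurable f := by
  refine Submodule.span_induction (p := fun f _ => Measurable f) ?_ ?_ ?_ ?_ hf
  · rintro g ⟨A, hA, rfl⟩
    exact measurable_const.indicator hA
  · exact measurable_const
  · intro a b _ _ ha hb
    exact ha.add hb
  · intro c a _ ha
    exact ha.const_smul c

lemma V_bdd {f : X → ℝ} (hf : f ∈ V X) : ∃ C : ℝ, 0 ≤ C ∧ ∀ x, |f x| ≤ C := by
  refine Submodule.span_induction (p := fun f _ => ∃ C : ℝ, 0 ≤ C ∧ ∀ x, |f x| ≤ C) ?_ ?_ ?_ ?_ hf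
  · rintro g ⟨A, hA, rfl⟩
    refine ⟨1, zero_le_one, fun x => ?_⟩
    by_cases hx : x ∈ A <;> simp [hx]
  · exact ⟨0, le_rfl, fun x => by simp⟩
  · rintro a b _ _ ⟨C, hC, ha⟩ ⟨D, hD, hb⟩
    exact ⟨C + D, by positivity, fun x => (abs_add_le _ _).trans (add_le_add (ha x) (hb x))⟩
  · rintro c a _ ⟨C, hC, ha⟩
    refine ⟨|c| * C, by positivity, fun x => ?_⟩
    simp only [Pi.smul_apply, smul_eq_mul, abs_mul]
    exact mul_le_mul_of_nonneg_left (ha x) (abs_nonneg c)

lemma integrable_of_bdd {f : X → ℝ} (hf : Measurable f) {C : ℝ} (hC : ∀ x, |f x| ≤ C) :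
    Integrable f μ :=
  Integrable.of_bound hf.aestronglyMeasurable C (Eventually.of_forall fun x => by
    simpa [Real.norm_eq_abs] using hC x)

lemma V_integrable {f : X → ℝ} (hf : f ∈ V X) : Integrable f μ := by
  obtain ⟨C, -, hC⟩ := V_bdd hf
  exact integrable_of_bdd (V_meas hf) hC

lemma integrable_mul_comp (hT : MeasurePreserving T μ μ) {f g : X → ℝ} (hf : Measurable f)
    (hg : Measurable g) {C D : ℝ} (hC : ∀ x, |f x| ≤ C) (hD : ∀ x, |g x| ≤ D) (n : ℕ) :
    Integrable (fun x => f x * g (T^[n] x)) μ := by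
  refine integrable_of_bdd (C := C * D) (hf.mul (hg.comp (hT.iterate n).measurable)) fun x => ?_
  rw [abs_mul]
  exact mul_le_mul (hC x) (hD _) (abs_nonneg _) ((abs_nonneg _).trans (hC x))

lemma V_integrable_mul (hT : MeasurePreserving T μ μ) {f g : X → ℝ} (hf : f ∈ V X) (hg : g ∈ V X)
    (n : ℕ) : Integrable (fun x => f x * g (T^[n] x)) μ := by
  obtain ⟨C, -, hC⟩ := V_bdd hf
  obtain ⟨D, -, hD⟩ := V_bdd hg
  exact integrable_mul_comp hT (V_meas hf) (V_meas hg) hC hD n

/-- The mixing hypothesis. -/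
def Mix (μ : Measure X) (T : X → X) : Prop :=
  ∀ A B : Set X, MeasurableSet A → MeasurableSet B →
    Tendsto (fun n : ℕ => μ (A ∩ T^[n] ⁻¹' B)) atTop (𝓝 (μ A * μ B))

lemma integral_ind {A : Set X} (hA : MeasurableSet A) :
    ∫ x, A.indicator (fun _ => (1 : ℝ)) x ∂μ = μ.real A := by
  rw [integral_indicator hA]; simp

lemma mix_V (hT : MeasurePreserving T μ μ) (hmix : Mix μ T) {f g : X → ℝ} (hf : f ∈ V X)
    (hg : g ∈ V X) :
    Tendsto (fun n : ℕ => ∫ x, f x * g (T^[n] x) ∂μ) atTop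
      (𝓝 ((∫ x, f x ∂μ) * (∫ x, g x ∂μ))) := by
  refine Submodule.span_induction (p := fun f _ => Tendsto (fun n : ℕ => ∫ x, f x * g (T^[n] x) ∂μ)
    atTop (𝓝 ((∫ x, f x ∂μ) * (∫ x, g x ∂μ)))) ?_ ?_ ?_ ?_ hf
  · rintro f ⟨A, hA, rfl⟩
    refine Submodule.span_induction (p := fun g _ => Tendsto (fun n : ℕ =>
      ∫ x, A.indicator (fun _ => (1 : ℝ)) x * g (T^[n] x) ∂μ)
      atTop (𝓝 ((∫ x, A.indicator (fun _ => (1 : ℝ)) x ∂μ) * (∫ x, g x ∂μ)))) ?_ ?_ ?_ ?_ hg
    · rintro g ⟨B, hB, rfl⟩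
      rw [integral_ind hA, integral_ind hB]
      have h1 : ∀ n : ℕ, ∫ x, A.indicator (fun _ => (1 : ℝ)) x *
          B.indicator (fun _ => (1 : ℝ)) (T^[n] x) ∂μ = μ.real (A ∩ T^[n] ⁻¹' B) := by
        intro n
        rw [← integral_ind (hA.inter ((hT.iterate n).measurable hB))]
        congr 1
        funext x
        by_cases h : x ∈ A <;> by_cases h' : T^[n] x ∈ B <;> simp [h, h', Set.indicator]
      simp_rw [h1]
      have h2 := (ENNReal.tendsto_toReal (by finiteness)).comp (hmix A B hA hB)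
      simpa [Measure.real, ENNReal.toReal_mul, Function.comp_def] using h2
    · simp
    · intro a b ha hb h1 h2
      have h3 : ∀ n : ℕ, ∫ x, A.indicator (fun _ => (1 : ℝ)) x * (a + b) (T^[n] x) ∂μ
          = (∫ x, A.indicator (fun _ => (1 : ℝ)) x * a (T^[n] x) ∂μ)
            + ∫ x, A.indicator (fun _ => (1 : ℝ)) x * b (T^[n] x) ∂μ := by
        intro n
        rw [← integral_add (V_integrable_mul hT (ind_mem_V hA) ha n)
          (V_integrable_mul hT (ind_mem_V hA) hb n)]
        congr 1; funext x; simp [mul_add]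
      simp_rw [h3]
      have h4 : ∫ x, (a + b) x ∂μ = (∫ x, a x ∂μ) + ∫ x, b x ∂μ :=
        integral_add (V_integrable ha) (V_integrable hb)
      rw [h4, mul_add]
      exact h1.add h2
    · intro c a ha h1
      have h3 : ∀ n : ℕ, ∫ x, A.indicator (fun _ => (1 : ℝ)) x * (c • a) (T^[n] x) ∂μ
          = c * ∫ x, A.indicator (fun _ => (1 : ℝ)) x * a (T^[n] x) ∂μ := by
        intro n
        rw [← integral_const_mul]
        congr 1; funext x; simp; ring
      simp_rw [h3]
      have h4 : ∫ x, (c • a) x ∂μ = c * ∫ x, a x ∂μ := by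
        rw [← integral_const_mul]; rfl
      rw [h4]
      have := h1.const_mul c
      convert this using 2
      ring
  · simp
  · intro a b ha hb h1 h2
    have h3 : ∀ n : ℕ, ∫ x, (a + b) x * g (T^[n] x) ∂μ
        = (∫ x, a x * g (T^[n] x) ∂μ) + ∫ x, b x * g (T^[n] x) ∂μ := by
      intro n
      rw [← integral_add (V_integrable_mul hT ha hg n) (V_integrable_mul hT hb hg n)]
      congr 1; funext x; simp [add_mul]
    simp_rw [h3]
    have h4 : ∫ x, (a + b) x ∂μ = (∫ x, a x ∂μ) + ∫ x, b x ∂μ :=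
      integral_add (V_integrable ha) (V_integrable hb)
    rw [h4, add_mul]
    exact h1.add h2
  · intro c a ha h1
    have h3 : ∀ n : ℕ, ∫ x, (c • a) x * g (T^[n] x) ∂μ
        = c * ∫ x, a x * g (T^[n] x) ∂μ := by
      intro n
      rw [← integral_const_mul]
      congr 1; funext x; simp; ring
    simp_rw [h3]
    have h4 : ∫ x, (c • a) x ∂μ = c * ∫ x, a x ∂μ := by
      rw [← integral_const_mul]; rfl
    rw [h4]
    have := h1.const_mul c
    convert this using 2
    ring

end Pool.Agent.OverRec
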