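import Pool.Agent.MP_e8a8db_an.Step

set_option autoImplicit false
open MeasureTheory Filter Topology

namespace Pool.Agent.OverRec

variable {X : Type} [MeasurableSpace X] {μ : Measure X} [IsProbabilityMeasure μ] {T : X → X}

/-- The invariant of the recursion. -/
def Inv (μ : Measure X) (T : X → X) (m : ℕ) (s : (X → ℝ) × ℕ) : Prop :=
  s.1 ∈ V X ∧ ∫ x, s.1 x ∂μ = 0 ∧
    ∀ n > s.2, -(52 / 1000) * ((1 / 2 : ℝ) ^ m) ^ 2 ≤ cor μ T s.1 n

/-- The relation between consecutive stages. -/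
def Rel (μ : Measure X) (T : X → X) (m : ℕ) (s s' : (X → ℝ) × ℕ) : Prop :=
  (∀ x, |s'.1 x - s.1 x| ≤ (1 / 2 : ℝ) ^ m) ∧ s.2 < s'.2 ∧
    (∀ n ≤ s.2, cor μ T s.1 n ≤ cor μ T s'.1 n) ∧
    (∀ n, s.2 < n → n ≤ s'.2 → 2 / 100 * ((1 / 2 : ℝ) ^ m) ^ 2 ≤ cor μ T s'.1 n)

lemma exists_next (hT : MeasurePreserving T μ μ) (hmix : Mix μ T)
    (hnt : ∃ A : Set X, MeasurableSet A ∧ 0 < μ A ∧ μ A < 1) (m : ℕ) (s : (X → ℝ) × ℕ)
    (hs : Inv μ T m s) : ∃ s', Inv μ T (m + 1) s' ∧ Rel μ T m s s' := by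
  obtain ⟨hf, hf0, hlow⟩ := hs
  obtain ⟨g, N', hg, hg1, hg0, hN, h1, h2, h3⟩ := step hT hmix hnt hf hf0 s.2
    (w := (1 / 2 : ℝ) ^ m) (by positivity) hlow
  refine ⟨(s.1 + ((1 / 2 : ℝ) ^ m) • g, N'), ⟨(V X).add_mem hf ((V X).smul_mem _ hg), ?_, ?_⟩, ?_,
    hN, h1, h2⟩
  · have hw : Integrable (((1 / 2 : ℝ) ^ m) • g) μ := V_integrable ((V X).smul_mem _ hg)
    have : ∫ x, (s.1 + ((1 / 2 : ℝ) ^ m) • g) x ∂μ
        = (∫ x, s.1 x ∂μ) + ∫ x, (((1 / 2 : ℝ) ^ m) • g) x ∂μ :=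
      integral_add (V_integrable hf) hw
    rw [this, hf0]
    have h5 : ∫ x, (((1 / 2 : ℝ) ^ m) • g) x ∂μ = (1 / 2 : ℝ) ^ m * ∫ x, g x ∂μ := by
      rw [← integral_const_mul]; rfl
    rw [h5, hg0]; simp
  · intro n hn
    refine le_trans (le_of_eq ?_) (h3 n hn)
    rw [pow_succ]; ring
  · intro x
    simp only [Pi.add_apply, Pi.smul_apply, smul_eq_mul, add_sub_cancel_left]
    rw [abs_mul, abs_of_pos (by positivity : (0 : ℝ) < (1 / 2) ^ m)]
    exact mul_le_of_le_one_right (by positivity) (hg1 x)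

/-- In every nontrivial mixing system there is a bounded function with zero mean and strictly
positive autocorrelations. -/
theorem exists_function (hT : MeasurePreserving T μ μ) (hmix : Mix μ T)
    (hnt : ∃ A : Set X, MeasurableSet A ∧ 0 < μ A ∧ μ A < 1) :
    ∃ F : X → ℝ, Measurable F ∧ (∀ x, |F x| ≤ 2) ∧ ∫ x, F x ∂μ = 0 ∧
      ∀ n : ℕ, 1 ≤ n → 0 < ∫ x, F x * F (T^[n] x) ∂μ := by
  classical
  have hnext := exists_next (μ := μ) (T := T) hT hmix hnt
  choose! nx hnx using hnext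
  let s : ℕ → (X → ℝ) × ℕ := fun m => Nat.rec ((0 : X → ℝ), 0) (fun m t => nx m t) m
  have hs0 : s 0 = (0, 0) := rfl
  have hsS : ∀ m, s (m + 1) = nx m (s m) := fun m => rfl
  have hI : ∀ m, Inv μ T m (s m) := by
    intro m
    induction m with
    | zero =>
      rw [hs0]
      refine ⟨(V X).zero_mem, by simp, fun n _ => ?_⟩
      simp [cor]
      norm_num
    | succ m ih =>
      rw [hsS]
      exact (hnx m (s m) ih).1
  have hR : ∀ m, Rel μ T m (s m) (s (m + 1)) := fun m => by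
    rw [hsS]; exact (hnx m (s m) (hI m)).2
  have hmono : StrictMono fun m => (s m).2 := strictMono_nat_of_lt_succ fun m => (hR m).2.1
  -- the limit
  have hcau : ∀ x, CauchySeq fun m => (s m).1 x := by
    intro x
    refine cauchySeq_of_le_geometric (1 / 2) 1 (by norm_num) fun m => ?_
    rw [dist_comm, Real.dist_eq, one_mul]
    exact (hR m).1 x
  have hlim : ∀ x, ∃ y, Tendsto (fun m => (s m).1 x) atTop (𝓝 y) := fun x =>
    cauchySeq_tendsto_of_complete (hcau x)
  choose F hF using hlim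
  have hbd : ∀ m x, |(s m).1 x| ≤ 2 - 2 * (1 / 2 : ℝ) ^ m := by
    intro m x
    induction m with
    | zero => rw [hs0]; simp
    | succ m ih =>
      have h1 := (hR m).1 x
      have h2 : |(s (m + 1)).1 x| ≤ |(s (m + 1)).1 x - (s m).1 x| + |(s m).1 x| := by
        have := abs_add_le ((s (m + 1)).1 x - (s m).1 x) ((s m).1 x)
        simpa using this
      rw [pow_succ]
      linarith
  have hbd2 : ∀ m x, |(s m).1 x| ≤ 2 := fun m x => (hbd m x).trans (by
    have : (0 : ℝ) < (1 / 2) ^ m := by positivity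
    linarith)
  have hmeas : ∀ m, Measurable (s m).1 := fun m => V_meas (hI m).1
  have hFm : Measurable F := by
    refine measurable_of_tendsto_metrizable (f := fun m => (s m).1) hmeas ?_
    rw [tendsto_pi_nhds]
    exact hF
  have hFb : ∀ x, |F x| ≤ 2 := fun x =>
    le_of_tendsto ((hF x).abs) (Eventually.of_forall fun m => hbd2 m x)
  have hF0 : ∫ x, F x ∂μ = 0 := by
    have h1 : Tendsto (fun m => ∫ x, (s m).1 x ∂μ) atTop (𝓝 (∫ x, F x ∂μ)) := by
      refine tendsto_integral_of_dominated_convergence (fun _ => (2 : ℝ))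
        (fun m => (hmeas m).aestronglyMeasurable) (integrable_const _) ?_ ?_
      · intro m
        exact Eventually.of_forall fun x => by simpa [Real.norm_eq_abs] using hbd2 m x
      · exact Eventually.of_forall hF
    have h2 : ∀ m, ∫ x, (s m).1 x ∂μ = 0 := fun m => (hI m).2.1
    simp_rw [h2] at h1
    exact (tendsto_nhds_unique h1 tendsto_const_nhds)
  have hcor : ∀ n, Tendsto (fun m => cor μ T (s m).1 n) atTop (𝓝 (cor μ T F n)) := by
    intro n
    have hnm : Measurable (T^[n]) := hT.measurable.iterate n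
    refine tendsto_integral_of_dominated_convergence (fun _ => (4 : ℝ))
      (fun m => ((hmeas m).mul ((hmeas m).comp hnm)).aestronglyMeasurable) (integrable_const _) ?_ ?_
    · intro m
      refine Eventually.of_forall fun x => ?_
      rw [Real.norm_eq_abs, abs_mul]
      calc |(s m).1 x| * |(s m).1 (T^[n] x)| ≤ 2 * 2 :=
            mul_le_mul (hbd2 m x) (hbd2 m _) (abs_nonneg _) (by norm_num)
        _ = 4 := by norm_num
    · exact Eventually.of_forall fun x => (hF x).mul (hF (T^[n] x))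
  refine ⟨F, hFm, hFb, hF0, fun n hn => ?_⟩
  -- find the stage `m` with `N_m < n ≤ N_{m+1}`
  have hex : ∃ m, n ≤ (s m).2 := ⟨n, hmono.id_le n⟩
  set p := Nat.find hex with hp
  have hp1 : n ≤ (s p).2 := Nat.find_spec hex
  have hp0 : p ≠ 0 := by
    intro h0
    rw [h0, hs0] at hp1
    simp at hp1
    omega
  obtain ⟨m, hm⟩ := Nat.exists_eq_succ_of_ne_zero hp0
  have hm1 : (s m).2 < n := by
    by_contra hcon
    push Not at hcon
    have := Nat.find_min' hex hcon
    omega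
  have hm2 : n ≤ (s (m + 1)).2 := by rw [← Nat.succ_eq_add_one, ← hm]; exact hp1
  have hlow := (hR m).2.2.2 n hm1 hm2
  have hinc : ∀ k, m + 1 ≤ k → 2 / 100 * ((1 / 2 : ℝ) ^ m) ^ 2 ≤ cor μ T (s k).1 n := by
    intro k hk
    induction k, hk using Nat.le_induction with
    | base => exact hlow
    | succ k hk ih =>
      have hnk : n ≤ (s k).2 := hm2.trans (hmono.monotone hk)
      exact ih.trans ((hR k).2.2.1 n hnk)
  have hfin : 2 / 100 * ((1 / 2 : ℝ) ^ m) ^ 2 ≤ cor μ T F n :=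
    ge_of_tendsto (hcor n) (eventually_atTop.2 ⟨m + 1, hinc⟩)
  exact lt_of_lt_of_le (by positivity) hfin

end Pool.Agent.OverRec
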