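import Pool.Agent.MP_e8a8db_an.Sets

set_option autoImplicit false
open MeasureTheory Filter Topology

namespace Pool.Agent.OverRec

variable {X : Type} [MeasurableSpace X] {μ : Measure X} [IsProbabilityMeasure μ] {T : X → X}

lemma integral_comp_iter (hT : MeasurePreserving T μ μ) {h : X → ℝ} (hm : Measurable h) (n : ℕ) :
    ∫ x, h (T^[n] x) ∂μ = ∫ x, h x ∂μ := by
  have h1 := hT.iterate n
  conv_rhs => rw [← h1.map_eq]
  rw [integral_map h1.measurable.aemeasurable hm.aestronglyMeasurable]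

lemma integrable_bm {h : X → ℝ} (hm : Measurable h) (C : ℝ) (hC : ∀ x, |h x| ≤ C) :
    Integrable h μ := integrable_of_bdd hm hC

/-- `∫ |g ∘ T^p - g| ≤ p ∫ |g ∘ T - g|`. -/
lemma iter_diff (hT : MeasurePreserving T μ μ) {g : X → ℝ} (hg : Measurable g)
    (hg1 : ∀ x, |g x| ≤ 1) (p : ℕ) :
    ∫ x, |g (T^[p] x) - g x| ∂μ ≤ p * ∫ x, |g (T x) - g x| ∂μ := by
  have hTm := hT.measurable
  have hb : ∀ (a b : X → X) (x : X), |(|g (a x) - g (b x)|)| ≤ 2 := by
    intro a b x
    rw [abs_abs]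
    have h1 := abs_le.1 (hg1 (a x))
    have h2 := abs_le.1 (hg1 (b x))
    rw [abs_le]; constructor <;> linarith [h1.1, h1.2, h2.1, h2.2]
  induction p with
  | zero => simp
  | succ p ih =>
    have hpm : Measurable (T^[p]) := hTm.iterate p
    have hp1m : Measurable (T^[p + 1]) := hTm.iterate (p + 1)
    have i1 : Integrable (fun x => |g (T^[p + 1] x) - g x|) μ :=
      integrable_bm ((hg.comp hp1m).sub hg).abs 2 (hb _ id)
    have i2 : Integrable (fun x => |g (T^[p] (T x)) - g (T x)|) μ :=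
      integrable_bm ((hg.comp (hpm.comp hTm)).sub (hg.comp hTm)).abs 2
        (fun x => hb (fun x => T^[p] (T x)) T x)
    have i3 : Integrable (fun x => |g (T x) - g x|) μ :=
      integrable_bm ((hg.comp hTm).sub hg).abs 2 (hb _ id)
    have e1 : ∫ x, |g (T^[p] (T x)) - g (T x)| ∂μ = ∫ x, |g (T^[p] x) - g x| ∂μ := by
      have := integral_comp_iter hT (h := fun x => |g (T^[p] x) - g x|)
        ((hg.comp hpm).sub hg).abs 1
      simpa using this
    calc ∫ x, |g (T^[p + 1] x) - g x| ∂μ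
        ≤ ∫ x, (|g (T^[p] (T x)) - g (T x)| + |g (T x) - g x|) ∂μ := by
          refine integral_mono i1 (i2.add i3) fun x => ?_
          simp only [Function.iterate_succ_apply]
          exact abs_sub_le _ _ _
      _ = (∫ x, |g (T^[p] x) - g x| ∂μ) + ∫ x, |g (T x) - g x| ∂μ := by
          rw [integral_add i2 i3, e1]
      _ ≤ ((p + 1 : ℕ) : ℝ) * ∫ x, |g (T x) - g x| ∂μ := by
          push_cast; linarith

/-- Shifting the second function. -/
lemma shift_right (hT : MeasurePreserving T μ μ) {f g : X → ℝ} (hf : Measurable f)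
    (hg : Measurable g) {C : ℝ} (hC0 : 0 ≤ C) (hC : ∀ x, |f x| ≤ C) (hg1 : ∀ x, |g x| ≤ 1)
    (n p : ℕ) :
    |(∫ x, g x * f (T^[n] x) ∂μ) - ∫ x, g x * f (T^[p] (T^[n] x)) ∂μ|
      ≤ C * (p * ∫ x, |g (T x) - g x| ∂μ) := by
  have hTm := hT.measurable
  have hpm : Measurable (T^[p]) := hTm.iterate p
  have hnm : Measurable (T^[n]) := hTm.iterate n
  have e1 : ∫ x, g x * f (T^[n] x) ∂μ = ∫ x, g (T^[p] x) * f (T^[p] (T^[n] x)) ∂μ := by
    rw [← integral_comp_iter hT (h := fun x => g x * f (T^[n] x)) (hg.mul (hf.comp hnm)) p]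
    congr 1
    funext x
    rw [← Function.iterate_add_apply, ← Function.iterate_add_apply, add_comm]
  have i1 : Integrable (fun x => g (T^[p] x) * f (T^[p] (T^[n] x))) μ := by
    refine integrable_bm ((hg.comp hpm).mul (hf.comp (hpm.comp hnm))) C fun x => ?_
    rw [abs_mul]
    calc |g (T^[p] x)| * |f (T^[p] (T^[n] x))| ≤ 1 * C :=
          mul_le_mul (hg1 _) (hC _) (abs_nonneg _) zero_le_one
      _ = C := one_mul C
  have i2 : Integrable (fun x => g x * f (T^[p] (T^[n] x))) μ := by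
    refine integrable_bm (hg.mul (hf.comp (hpm.comp hnm))) C fun x => ?_
    rw [abs_mul]
    calc |g x| * |f (T^[p] (T^[n] x))| ≤ 1 * C :=
          mul_le_mul (hg1 _) (hC _) (abs_nonneg _) zero_le_one
      _ = C := one_mul C
  have i3 : Integrable (fun x => |g (T^[p] x) - g x|) μ :=
    integrable_bm ((hg.comp hpm).sub hg).abs 2 fun x => by
      rw [abs_abs]
      have h1 := abs_le.1 (hg1 (T^[p] x))
      have h2 := abs_le.1 (hg1 x)
      rw [abs_le]; constructor <;> linarith [h1.1, h1.2, h2.1, h2.2]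
  rw [e1, ← integral_sub i1 i2]
  calc |∫ x, (g (T^[p] x) * f (T^[p] (T^[n] x)) - g x * f (T^[p] (T^[n] x))) ∂μ|
      ≤ ∫ x, |g (T^[p] x) * f (T^[p] (T^[n] x)) - g x * f (T^[p] (T^[n] x))| ∂μ :=
        abs_integral_le_integral_abs
    _ ≤ ∫ x, C * |g (T^[p] x) - g x| ∂μ := by
        refine integral_mono (i1.sub i2).abs (i3.const_mul C) fun x => ?_
        simp only [Pi.sub_apply]
        rw [← sub_mul, abs_mul, mul_comm]
        exact mul_le_mul_of_nonneg_right (hC _) (abs_nonneg _)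
    _ = C * ∫ x, |g (T^[p] x) - g x| ∂μ := integral_const_mul _ _
    _ ≤ C * (p * ∫ x, |g (T x) - g x| ∂μ) :=
        mul_le_mul_of_nonneg_left (iter_diff hT hg hg1 p) hC0

/-- Shifting the first function. -/
lemma shift_left (hT : MeasurePreserving T μ μ) {f g : X → ℝ} (hf : Measurable f)
    (hg : Measurable g) {C : ℝ} (hC0 : 0 ≤ C) (hC : ∀ x, |f x| ≤ C) (hg1 : ∀ x, |g x| ≤ 1)
    (n p : ℕ) :
    |(∫ x, f x * g (T^[n] x) ∂μ) - ∫ x, f (T^[p] x) * g (T^[n] x) ∂μ|
      ≤ C * (p * ∫ x, |g (T x) - g x| ∂μ) := by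
  have hTm := hT.measurable
  have hpm : Measurable (T^[p]) := hTm.iterate p
  have hnm : Measurable (T^[n]) := hTm.iterate n
  have e1 : ∫ x, f x * g (T^[n] x) ∂μ = ∫ x, f (T^[p] x) * g (T^[p] (T^[n] x)) ∂μ := by
    rw [← integral_comp_iter hT (h := fun x => f x * g (T^[n] x)) (hf.mul (hg.comp hnm)) p]
    congr 1
    funext x
    rw [← Function.iterate_add_apply, ← Function.iterate_add_apply, add_comm]
  have i1 : Integrable (fun x => f (T^[p] x) * g (T^[p] (T^[n] x))) μ := by
    refine integrable_bm ((hf.comp hpm).mul (hg.comp (hpm.comp hnm))) C fun x => ?_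
    rw [abs_mul]
    calc |f (T^[p] x)| * |g (T^[p] (T^[n] x))| ≤ C * 1 :=
          mul_le_mul (hC _) (hg1 _) (abs_nonneg _) hC0
      _ = C := mul_one C
  have i2 : Integrable (fun x => f (T^[p] x) * g (T^[n] x)) μ := by
    refine integrable_bm ((hf.comp hpm).mul (hg.comp hnm)) C fun x => ?_
    rw [abs_mul]
    calc |f (T^[p] x)| * |g (T^[n] x)| ≤ C * 1 :=
          mul_le_mul (hC _) (hg1 _) (abs_nonneg _) hC0
      _ = C := mul_one C
  have hdm : Measurable (fun x => |g (T^[p] x) - g x|) := ((hg.comp hpm).sub hg).abs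
  have hdb : ∀ x, |(|g (T^[p] x) - g x|)| ≤ 2 := fun x => by
      rw [abs_abs]
      have h1 := abs_le.1 (hg1 (T^[p] x))
      have h2 := abs_le.1 (hg1 x)
      rw [abs_le]; constructor <;> linarith [h1.1, h1.2, h2.1, h2.2]
  have i3 : Integrable (fun x => |g (T^[p] (T^[n] x)) - g (T^[n] x)|) μ :=
    integrable_bm (hdm.comp hnm) 2 fun x => hdb _
  rw [e1, ← integral_sub i1 i2]
  calc |∫ x, (f (T^[p] x) * g (T^[p] (T^[n] x)) - f (T^[p] x) * g (T^[n] x)) ∂μ|
      ≤ ∫ x, |f (T^[p] x) * g (T^[p] (T^[n] x)) - f (T^[p] x) * g (T^[n] x)| ∂μ :=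
        abs_integral_le_integral_abs
    _ ≤ ∫ x, C * |g (T^[p] (T^[n] x)) - g (T^[n] x)| ∂μ := by
        refine integral_mono (i1.sub i2).abs (i3.const_mul C) fun x => ?_
        simp only [Pi.sub_apply]
        rw [← mul_sub, abs_mul]
        exact mul_le_mul_of_nonneg_right (hC _) (abs_nonneg _)
    _ = C * ∫ x, |g (T^[p] (T^[n] x)) - g (T^[n] x)| ∂μ := integral_const_mul _ _
    _ = C * ∫ x, |g (T^[p] x) - g x| ∂μ := by
        rw [integral_comp_iter hT hdm n]
    _ ≤ C * (p * ∫ x, |g (T x) - g x| ∂μ) :=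
        mul_le_mul_of_nonneg_left (iter_diff hT hg hg1 p) hC0

/-- A function `f` of the class `V` with integral `0` has spaced Birkhoff averages of small
`L¹` norm. -/
lemma small_average (hT : MeasurePreserving T μ μ) (hmix : Mix μ T) {f : X → ℝ} (hf : f ∈ V X)
    (hf0 : ∫ x, f x ∂μ = 0) {ε : ℝ} (hε : 0 < ε) :
    ∃ M P : ℕ, 0 < P ∧ ∫ x, |(1 / P : ℝ) * ∑ i ∈ Finset.range P, f (T^[i * M] x)| ∂μ ≤ ε / 2 := by
  obtain ⟨C, hC0, hC⟩ := V_bdd hf
  have hfm := V_meas hf
  have hTm := hT.measurable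
  have hlim := mix_V hT hmix hf hf
  rw [hf0, mul_zero] at hlim
  obtain ⟨M, hM⟩ := (Metric.tendsto_atTop.1 hlim) (ε ^ 2 / 8) (by positivity)
  obtain ⟨P, hP⟩ := exists_nat_gt (8 * C ^ 2 / ε ^ 2)
  have hP0 : 0 < (P : ℝ) := lt_of_le_of_lt (by positivity) hP
  have hPn : 0 < P := by exact_mod_cast hP0
  refine ⟨M, P, hPn, ?_⟩
  set a : X → ℝ := fun x => (1 / P : ℝ) * ∑ i ∈ Finset.range P, f (T^[i * M] x) with ha
  have him : ∀ i : ℕ, Measurable fun x => f (T^[i] x) := fun i => hfm.comp (hTm.iterate i)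
  have ham : Measurable a := by
    refine measurable_const.mul ?_
    exact Finset.measurable_sum _ fun i _ => him _
  have hab : ∀ x, |a x| ≤ C := by
    intro x
    rw [ha]
    simp only
    rw [abs_mul, abs_of_pos (by positivity : (0 : ℝ) < 1 / P)]
    have : |∑ i ∈ Finset.range P, f (T^[i * M] x)| ≤ P * C := by
      refine (Finset.abs_sum_le_sum_abs _ _).trans ?_
      calc ∑ i ∈ Finset.range P, |f (T^[i * M] x)| ≤ ∑ i ∈ Finset.range P, C :=
            Finset.sum_le_sum fun i _ => hC _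
        _ = P * C := by simp
    calc 1 / (P : ℝ) * |∑ i ∈ Finset.range P, f (T^[i * M] x)| ≤ 1 / P * (P * C) :=
          mul_le_mul_of_nonneg_left this (by positivity)
      _ = C := by field_simp
  have iprod : ∀ i j : ℕ, Integrable (fun x => f (T^[i] x) * f (T^[j] x)) μ := by
    intro i j
    refine integrable_bm ((him i).mul (him j)) (C * C) fun x => ?_
    rw [abs_mul]
    exact mul_le_mul (hC _) (hC _) (abs_nonneg _) hC0
  have hcorr : ∀ i j : ℕ, i ≤ j → ∫ x, f (T^[i] x) * f (T^[j] x) ∂μ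
      = ∫ x, f x * f (T^[j - i] x) ∂μ := by
    intro i j hij
    rw [← integral_comp_iter hT (h := fun x => f x * f (T^[j - i] x)) (hfm.mul (him _)) i]
    congr 1; funext x
    rw [← Function.iterate_add_apply, Nat.sub_add_cancel hij]
  have hsmall : ∀ i j : ℕ, i < j → |∫ x, f (T^[i * M] x) * f (T^[j * M] x) ∂μ| ≤ ε ^ 2 / 8 := by
    intro i j hij
    rw [hcorr _ _ (Nat.mul_le_mul_right _ hij.le)]
    have h1 : M ≤ j * M - i * M := by
      rw [← Nat.sub_mul]
      exact Nat.le_mul_of_pos_left _ (by omega)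
    have := hM _ h1
    rw [Real.dist_eq, sub_zero] at this
    exact this.le
  have hpair : ∀ i j : ℕ, |∫ x, f (T^[i * M] x) * f (T^[j * M] x) ∂μ|
      ≤ (if i = j then C ^ 2 else 0) + ε ^ 2 / 8 := by
    intro i j
    rcases lt_trichotomy i j with h | h | h
    · rw [if_neg h.ne, zero_add]; exact hsmall i j h
    · subst h
      rw [if_pos rfl]
      have : |∫ x, f (T^[i * M] x) * f (T^[i * M] x) ∂μ| ≤ C ^ 2 := by
        refine (abs_integral_le_integral_abs).trans ?_
        calc ∫ x, |f (T^[i * M] x) * f (T^[i * M] x)| ∂μ ≤ ∫ x, C ^ 2 ∂μ := by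
              refine integral_mono (iprod _ _).abs (integrable_const _) fun x => ?_
              simp only
              rw [abs_mul, sq]
              exact mul_le_mul (hC _) (hC _) (abs_nonneg _) hC0
          _ = C ^ 2 := by simp
      have h8 : 0 ≤ ε ^ 2 / 8 := by positivity
      linarith
    · rw [if_neg h.ne', zero_add]
      have := hsmall j i h
      simpa [mul_comm] using this
  have hsq : ∫ x, a x ^ 2 ∂μ ≤ ε ^ 2 / 4 := by
    have e1 : ∀ x, a x ^ 2 = (1 / P : ℝ) ^ 2 * ∑ i ∈ Finset.range P, ∑ j ∈ Finset.range P,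
        f (T^[i * M] x) * f (T^[j * M] x) := by
      intro x
      simp only [ha]
      rw [mul_pow, sq (∑ i ∈ Finset.range P, f (T^[i * M] x)), Finset.sum_mul_sum]
    simp_rw [e1]
    rw [integral_const_mul, integral_finsetSum _ fun i _ => integrable_finsetSum _ fun j _ => iprod _ _]
    have e2 : ∀ i, ∫ x, ∑ j ∈ Finset.range P, f (T^[i * M] x) * f (T^[j * M] x) ∂μ
        = ∑ j ∈ Finset.range P, ∫ x, f (T^[i * M] x) * f (T^[j * M] x) ∂μ := fun i =>
      integral_finsetSum _ fun j _ => iprod _ _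
    simp_rw [e2]
    have e3 : ∑ i ∈ Finset.range P, ∑ j ∈ Finset.range P,
        ∫ x, f (T^[i * M] x) * f (T^[j * M] x) ∂μ ≤ P * C ^ 2 + P ^ 2 * (ε ^ 2 / 8) := by
      calc _ ≤ ∑ i ∈ Finset.range P, ∑ j ∈ Finset.range P,
            ((if i = j then C ^ 2 else 0) + ε ^ 2 / 8) :=
            Finset.sum_le_sum fun i _ => Finset.sum_le_sum fun j _ =>
              (le_abs_self _).trans (hpair i j)
        _ = ∑ i ∈ Finset.range P, (C ^ 2 + P * (ε ^ 2 / 8)) := by
            refine Finset.sum_congr rfl fun i hi => ?_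
            rw [Finset.sum_add_distrib, Finset.sum_ite_eq]
            simp [Finset.mem_range.1 hi]
        _ = P * C ^ 2 + P ^ 2 * (ε ^ 2 / 8) := by
            simp; ring
    have hCP : C ^ 2 / P ≤ ε ^ 2 / 8 := by
      rw [div_lt_iff₀ (by positivity)] at hP
      rw [div_le_iff₀ hP0]
      nlinarith
    calc (1 / P : ℝ) ^ 2 * ∑ i ∈ Finset.range P, ∑ j ∈ Finset.range P,
        ∫ x, f (T^[i * M] x) * f (T^[j * M] x) ∂μ
        ≤ (1 / P : ℝ) ^ 2 * (P * C ^ 2 + P ^ 2 * (ε ^ 2 / 8)) :=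
          mul_le_mul_of_nonneg_left e3 (by positivity)
      _ = C ^ 2 / P + ε ^ 2 / 8 := by field_simp
      _ ≤ ε ^ 2 / 4 := by linarith
  have ia2 : Integrable (fun x => a x ^ 2) μ := by
    refine integrable_bm (ham.pow_const 2) (C ^ 2) fun x => ?_
    rw [abs_pow]
    exact pow_le_pow_left₀ (abs_nonneg _) (hab x) 2
  calc ∫ x, |a x| ∂μ ≤ ∫ x, (a x ^ 2 / ε + ε / 4) ∂μ := by
        refine integral_mono (integrable_bm ham C hab).abs
          ((ia2.div_const ε).add (integrable_const _)) fun x => ?_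
        simp only
        have h1 : |a x| * ε ≤ a x ^ 2 + ε ^ 2 / 4 := by
          nlinarith [sq_nonneg (|a x| - ε / 2), sq_abs (a x)]
        have h2 : a x ^ 2 / ε + ε / 4 = (a x ^ 2 + ε ^ 2 / 4) / ε := by
          field_simp
        rw [h2, le_div_iff₀ hε]
        exact h1
    _ = (∫ x, a x ^ 2 ∂μ) / ε + ε / 4 := by
        rw [integral_add (ia2.div_const ε) (integrable_const _), integral_div]
        simp
    _ ≤ (ε ^ 2 / 4) / ε + ε / 4 := by gcongr
    _ = ε / 2 := by field_simp; ring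

/-- Very nearly invariant functions are nearly orthogonal to all translates of `f`, uniformly. -/
lemma near_orth (hT : MeasurePreserving T μ μ) (hmix : Mix μ T) {f : X → ℝ} (hf : f ∈ V X)
    (hf0 : ∫ x, f x ∂μ = 0) {ε : ℝ} (hε : 0 < ε) :
    ∃ δ > 0, ∀ g : X → ℝ, Measurable g → (∀ x, |g x| ≤ 1) → ∫ x, |g (T x) - g x| ∂μ ≤ δ →
      ∀ n : ℕ, |∫ x, f x * g (T^[n] x) ∂μ| ≤ ε ∧ |∫ x, g x * f (T^[n] x) ∂μ| ≤ ε := by
  obtain ⟨C, hC0, hC⟩ := V_bdd hf
  have hfm := V_meas hf
  have hTm := hT.measurable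
  obtain ⟨M, P, hP, hsm⟩ := small_average hT hmix hf hf0 hε
  have hP0 : 0 < (P : ℝ) := by exact_mod_cast hP
  set a : X → ℝ := fun x => (1 / P : ℝ) * ∑ i ∈ Finset.range P, f (T^[i * M] x) with ha
  have him : ∀ i : ℕ, Measurable fun x => f (T^[i] x) := fun i => hfm.comp (hTm.iterate i)
  have ham : Measurable a := by
    refine measurable_const.mul ?_
    exact Finset.measurable_sum _ fun i _ => him _
  have hab : ∀ x, |a x| ≤ C := by
    intro x
    rw [ha]
    simp only
    rw [abs_mul, abs_of_pos (by positivity : (0 : ℝ) < 1 / P)]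
    have : |∑ i ∈ Finset.range P, f (T^[i * M] x)| ≤ P * C := by
      refine (Finset.abs_sum_le_sum_abs _ _).trans ?_
      calc ∑ i ∈ Finset.range P, |f (T^[i * M] x)| ≤ ∑ i ∈ Finset.range P, C :=
            Finset.sum_le_sum fun i _ => hC _
        _ = P * C := by simp
    calc 1 / (P : ℝ) * |∑ i ∈ Finset.range P, f (T^[i * M] x)| ≤ 1 / P * (P * C) :=
          mul_le_mul_of_nonneg_left this (by positivity)
      _ = C := by field_simp
  set K : ℝ := C * (P * M) with hK
  have hK0 : 0 ≤ K := by positivity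
  refine ⟨ε / (2 * (K + 1)), by positivity, fun g hg hg1 hgd n => ?_⟩
  set D := ∫ x, |g (T x) - g x| ∂μ with hD
  have hD0 : 0 ≤ D := integral_nonneg fun x => abs_nonneg _
  have hKD : K * D ≤ ε / 2 := by
    calc K * D ≤ K * (ε / (2 * (K + 1))) := mul_le_mul_of_nonneg_left hgd hK0
      _ = (K / (K + 1)) * (ε / 2) := by field_simp
      _ ≤ 1 * (ε / 2) := by
          refine mul_le_mul_of_nonneg_right ?_ (by positivity)
          rw [div_le_one (by positivity)]; linarith
      _ = ε / 2 := one_mul _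
  have hnm : Measurable (T^[n]) := hTm.iterate n
  have hCi : ∀ i ∈ Finset.range P, C * (((i * M : ℕ) : ℝ) * D) ≤ K * D := by
    intro i hi
    have hi' : (i : ℝ) ≤ P := by exact_mod_cast (Finset.mem_range.1 hi).le
    push_cast
    calc C * ((i : ℝ) * M * D) = (C * (i * M)) * D := by ring
      _ ≤ (C * (P * M)) * D := by gcongr
      _ = K * D := by rw [hK]
  constructor
  · -- first
    have i1 : ∀ i : ℕ, Integrable (fun x => f (T^[i * M] x) * g (T^[n] x)) μ := by
      intro i
      refine integrable_bm ((him _).mul (hg.comp hnm)) C fun x => ?_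
      rw [abs_mul]
      calc |f (T^[i * M] x)| * |g (T^[n] x)| ≤ C * 1 :=
            mul_le_mul (hC _) (hg1 _) (abs_nonneg _) hC0
        _ = C := mul_one C
    have e1 : ∫ x, a x * g (T^[n] x) ∂μ
        = (1 / P : ℝ) * ∑ i ∈ Finset.range P, ∫ x, f (T^[i * M] x) * g (T^[n] x) ∂μ := by
      rw [← integral_finsetSum _ fun i _ => i1 i, ← integral_const_mul]
      congr 1; funext x
      simp only [ha]
      rw [mul_assoc, Finset.sum_mul]
    have e2 : (∫ x, f x * g (T^[n] x) ∂μ)
        = (1 / P : ℝ) * ∑ i ∈ Finset.range P, ∫ x, f x * g (T^[n] x) ∂μ := by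
      simp; field_simp
    have e3 : |(∫ x, f x * g (T^[n] x) ∂μ) - ∫ x, a x * g (T^[n] x) ∂μ| ≤ K * D := by
      rw [e1, e2, ← mul_sub, ← Finset.sum_sub_distrib, abs_mul,
        abs_of_pos (by positivity : (0 : ℝ) < 1 / P)]
      calc 1 / (P : ℝ) * |∑ i ∈ Finset.range P, ((∫ x, f x * g (T^[n] x) ∂μ)
            - ∫ x, f (T^[i * M] x) * g (T^[n] x) ∂μ)|
          ≤ 1 / (P : ℝ) * ∑ i ∈ Finset.range P, K * D := by
            refine mul_le_mul_of_nonneg_left ?_ (by positivity)
            refine (Finset.abs_sum_le_sum_abs _ _).trans (Finset.sum_le_sum fun i hi => ?_)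
            exact (shift_left hT hfm hg hC0 hC hg1 n (i * M)).trans (hCi i hi)
        _ = K * D := by simp; field_simp
    have e4 : |∫ x, a x * g (T^[n] x) ∂μ| ≤ ε / 2 := by
      refine (abs_integral_le_integral_abs).trans (le_trans ?_ hsm)
      refine integral_mono ?_ (integrable_bm ham C hab).abs fun x => ?_
      · refine (integrable_bm (h := fun x => a x * g (T^[n] x)) (ham.mul (hg.comp hnm)) C
          fun x => ?_).abs
        rw [abs_mul]
        calc |a x| * |g (T^[n] x)| ≤ C * 1 :=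
              mul_le_mul (hab _) (hg1 _) (abs_nonneg _) hC0
          _ = C := mul_one C
      · simp only
        rw [abs_mul]
        exact mul_le_of_le_one_right (abs_nonneg _) (hg1 _)
    have := abs_le.1 e3
    have := abs_le.1 e4
    rw [abs_le]; constructor <;> linarith
  · have hin : ∀ i : ℕ, Measurable fun x => f (T^[i] (T^[n] x)) := fun i => (him i).comp hnm
    have i1 : ∀ i : ℕ, Integrable (fun x => g x * f (T^[i * M] (T^[n] x))) μ := by
      intro i
      refine integrable_bm (hg.mul (hin _)) C fun x => ?_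
      rw [abs_mul]
      calc |g x| * |f (T^[i * M] (T^[n] x))| ≤ 1 * C :=
            mul_le_mul (hg1 _) (hC _) (abs_nonneg _) zero_le_one
        _ = C := one_mul C
    have e1 : ∫ x, g x * a (T^[n] x) ∂μ
        = (1 / P : ℝ) * ∑ i ∈ Finset.range P, ∫ x, g x * f (T^[i * M] (T^[n] x)) ∂μ := by
      rw [← integral_finsetSum _ fun i _ => i1 i, ← integral_const_mul]
      congr 1; funext x
      simp only [ha]
      rw [← Finset.mul_sum]; ring
    have e2 : (∫ x, g x * f (T^[n] x) ∂μ)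
        = (1 / P : ℝ) * ∑ i ∈ Finset.range P, ∫ x, g x * f (T^[n] x) ∂μ := by
      simp; field_simp
    have e3 : |(∫ x, g x * f (T^[n] x) ∂μ) - ∫ x, g x * a (T^[n] x) ∂μ| ≤ K * D := by
      rw [e1, e2, ← mul_sub, ← Finset.sum_sub_distrib, abs_mul,
        abs_of_pos (by positivity : (0 : ℝ) < 1 / P)]
      calc 1 / (P : ℝ) * |∑ i ∈ Finset.range P, ((∫ x, g x * f (T^[n] x) ∂μ)
            - ∫ x, g x * f (T^[i * M] (T^[n] x)) ∂μ)|
          ≤ 1 / (P : ℝ) * ∑ i ∈ Finset.range P, K * D := by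
            refine mul_le_mul_of_nonneg_left ?_ (by positivity)
            refine (Finset.abs_sum_le_sum_abs _ _).trans (Finset.sum_le_sum fun i hi => ?_)
            exact (shift_right hT hfm hg hC0 hC hg1 n (i * M)).trans (hCi i hi)
        _ = K * D := by simp; field_simp
    have e4 : |∫ x, g x * a (T^[n] x) ∂μ| ≤ ε / 2 := by
      have e5 : ∫ x, |a (T^[n] x)| ∂μ ≤ ε / 2 := by
        rw [integral_comp_iter hT (h := fun x => |a x|) ham.abs n]
        exact hsm
      refine (abs_integral_le_integral_abs).trans (le_trans ?_ e5)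
      refine integral_mono ?_ (integrable_bm (ham.comp hnm) C fun x => hab _).abs fun x => ?_
      · refine (integrable_bm (h := fun x => g x * a (T^[n] x)) (hg.mul (ham.comp hnm)) C
          fun x => ?_).abs
        rw [abs_mul]
        calc |g x| * |a (T^[n] x)| ≤ 1 * C :=
              mul_le_mul (hg1 _) (hab _) (abs_nonneg _) zero_le_one
          _ = C := one_mul C
      · simp only [Function.comp_apply]
        rw [abs_mul]
        exact mul_le_of_le_one_left (abs_nonneg _) (hg1 _)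
    have := abs_le.1 e3
    have := abs_le.1 e4
    rw [abs_le]; constructor <;> linarith

end Pool.Agent.OverRec
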