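import Pool.Agent.MP_e8a8db_an.Basic

set_option autoImplicit false
open MeasureTheory Filter Topology

namespace Pool.Agent.OverRec

variable {X : Type} [MeasurableSpace X] {μ : Measure X} [IsProbabilityMeasure μ] {T : X → X}

lemma mix_real (hmix : Mix μ T) {A B : Set X} (hA : MeasurableSet A) (hB : MeasurableSet B) :
    Tendsto (fun n : ℕ => μ.real (A ∩ T^[n] ⁻¹' B)) atTop (𝓝 (μ.real A * μ.real B)) := by
  have h2 := (ENNReal.tendsto_toReal (by finiteness)).comp (hmix A B hA hB)
  simpa [Measure.real, ENNReal.toReal_mul, Function.comp_def] using h2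

lemma measureReal_preimage_iterate (hT : MeasurePreserving T μ μ) {B : Set X}
    (hB : MeasurableSet B) (n : ℕ) : μ.real (T^[n] ⁻¹' B) = μ.real B := by
  rw [Measure.real, Measure.real, (hT.iterate n).measure_preimage hB.nullMeasurableSet]

lemma small_sets (hT : MeasurePreserving T μ μ) (hmix : Mix μ T)
    (hnt : ∃ A : Set X, MeasurableSet A ∧ 0 < μ A ∧ μ A < 1) {δ : ℝ} (hδ : 0 < δ) :
    ∃ B : Set X, MeasurableSet B ∧ 0 < μ.real B ∧ μ.real B ≤ δ := by
  obtain ⟨A, hA, h0, h1⟩ := hnt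
  have hA0 : 0 < μ.real A := ENNReal.toReal_pos h0.ne' (by finiteness)
  have hA1 : μ.real A < 1 := by
    have := (ENNReal.toReal_lt_toReal (by finiteness) (by finiteness)).2 h1
    simpa [Measure.real] using this
  set a := μ.real A with ha
  set r := (1 + a) / 2 with hr
  have hr0 : 0 < r := by positivity
  have hr1 : r < 1 := by rw [hr]; linarith
  have key : ∀ n : ℕ, ∃ B : Set X, MeasurableSet B ∧ 0 < μ.real B ∧ μ.real B ≤ a * r ^ n := by
    intro n
    induction n with
    | zero => exact ⟨A, hA, hA0, by simp [ha]⟩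
    | succ n ih =>
      obtain ⟨B, hB, hB0, hB1⟩ := ih
      have hBa : μ.real B ≤ a := hB1.trans (mul_le_of_le_one_right hA0.le (pow_le_one₀ hr0.le hr1.le))
      have hlim := mix_real hmix hB hB
      have hB2 : 0 < μ.real B * μ.real B := by positivity
      have hB3 : μ.real B * μ.real B < μ.real B * r := by
        apply mul_lt_mul_of_pos_left _ hB0
        rw [hr]; linarith
      obtain ⟨m, hm⟩ := (hlim.eventually (Ioo_mem_nhds hB2 hB3)).exists
      refine ⟨B ∩ T^[m] ⁻¹' B, hB.inter ((hT.iterate m).measurable hB), hm.1, ?_⟩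
      calc μ.real (B ∩ T^[m] ⁻¹' B) ≤ μ.real B * r := hm.2.le
        _ ≤ a * r ^ n * r := by gcongr
        _ = a * r ^ (n + 1) := by ring
  have hlim : Tendsto (fun n : ℕ => a * r ^ n) atTop (𝓝 0) := by
    simpa using (tendsto_pow_atTop_nhds_zero_of_lt_one hr0.le hr1).const_mul a
  obtain ⟨n, hn⟩ := (hlim.eventually (Iio_mem_nhds hδ)).exists
  obtain ⟨B, hB, hB0, hB1⟩ := key n
  exact ⟨B, hB, hB0, hB1.trans hn.le⟩

/-- `W B n = B ∪ T⁻¹B ∪ ... ∪ T⁻ⁿB`. -/
def W (T : X → X) (B : Set X) (n : ℕ) : Set X := {x | ∃ j ≤ n, T^[j] x ∈ B}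

lemma W_meas (hT : MeasurePreserving T μ μ) {B : Set X} (hB : MeasurableSet B) (n : ℕ) :
    MeasurableSet (W T B n) := by
  have : W T B n = ⋃ j ∈ Set.Iic n, T^[j] ⁻¹' B := by
    ext x; simp [W]
  rw [this]
  exact MeasurableSet.biUnion (Set.to_countable _) fun j _ => (hT.iterate j).measurable hB

lemma W_mono (B : Set X) : Monotone (W T B) := by
  intro m n hmn x ⟨j, hj, hx⟩
  exact ⟨j, hj.trans hmn, hx⟩

lemma W_succ (B : Set X) (n : ℕ) : W T B (n + 1) = W T B n ∪ T^[n + 1] ⁻¹' B := by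
  ext x
  constructor
  · rintro ⟨j, hj, hx⟩
    rcases Nat.lt_or_ge j (n + 1) with h | h
    · exact Or.inl ⟨j, by omega, hx⟩
    · obtain rfl : j = n + 1 := by omega
      exact Or.inr hx
  · rintro (⟨j, hj, hx⟩ | hx)
    · exact ⟨j, by omega, hx⟩
    · exact ⟨n + 1, le_rfl, hx⟩

lemma measure_W_union (hT : MeasurePreserving T μ μ) (hmix : Mix μ T) {B : Set X}
    (hB : MeasurableSet B) (hB0 : 0 < μ.real B) : Tendsto (fun n => μ.real (W T B n)) atTop (𝓝 1) := by
  set U : Set X := ⋃ n, W T B n with hU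
  have hUm : MeasurableSet U := MeasurableSet.iUnion fun n => W_meas hT hB n
  have hlim : Tendsto (fun n => μ.real (W T B n)) atTop (𝓝 (μ.real U)) := by
    have := tendsto_measure_iUnion_atTop (μ := μ) (W_mono (T := T) B)
    exact (ENNReal.tendsto_toReal (by finiteness)).comp this
  have hsub : ∀ n : ℕ, T^[n] ⁻¹' U ⊆ U := by
    intro n x hx
    simp only [hU, Set.mem_preimage, Set.mem_iUnion] at hx ⊢
    obtain ⟨m, j, hj, hx⟩ := hx
    refine ⟨m + n, j + n, by omega, ?_⟩
    rwa [Function.iterate_add_apply]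
  have hinter : ∀ n : ℕ, μ.real (U ∩ T^[n] ⁻¹' U) = μ.real U := by
    intro n
    rw [Set.inter_eq_right.2 (hsub n), measureReal_preimage_iterate hT hUm]
  have h2 := mix_real hmix hUm hUm
  simp_rw [hinter] at h2
  have h3 : μ.real U = μ.real U * μ.real U := tendsto_nhds_unique tendsto_const_nhds h2
  have h4 : 0 < μ.real U := by
    refine hB0.trans_le (measureReal_mono ?_)
    intro x hx
    exact Set.mem_iUnion.2 ⟨0, 0, le_rfl, by simpa using hx⟩
  have h5 : μ.real U = 1 := by
    have : μ.real U * (μ.real U - 1) = 0 := by linarith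
    rcases mul_eq_zero.1 this with h | h <;> linarith
  rwa [h5] at hlim

/-- Nearly invariant sets of measure close to `1/10`. -/
lemma nearly_invariant (hT : MeasurePreserving T μ μ) (hmix : Mix μ T)
    (hnt : ∃ A : Set X, MeasurableSet A ∧ 0 < μ A ∧ μ A < 1) {δ : ℝ} (hδ : 0 < δ)
    (hδ1 : δ ≤ 1 / 100) :
    ∃ A : Set X, MeasurableSet A ∧ 1 / 10 ≤ μ.real A ∧ μ.real A ≤ 11 / 100 ∧
      μ.real (A \ T ⁻¹' A) ≤ δ ∧ μ.real (T ⁻¹' A \ A) ≤ δ := by
  classical
  obtain ⟨B, hB, hB0, hB1⟩ := small_sets hT hmix hnt hδ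
  have hex : ∃ n, 1 / 10 ≤ μ.real (W T B n) := by
    have := (measure_W_union hT hmix hB hB0).eventually (Ici_mem_nhds (by norm_num : (1 / 10 : ℝ) < 1))
    exact this.exists
  set n := Nat.find hex with hn
  have hn1 : 1 / 10 ≤ μ.real (W T B n) := Nat.find_spec hex
  have hn0 : n ≠ 0 := by
    intro h0
    rw [h0] at hn1
    have : W T B 0 = B := by
      ext x; simp [W]
    rw [this] at hn1
    linarith
  obtain ⟨m, hm⟩ := Nat.exists_eq_succ_of_ne_zero hn0
  have hm1 : μ.real (W T B m) < 1 / 10 := by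
    have := Nat.find_min hex (m := m) (by omega)
    exact not_le.1 this
  refine ⟨W T B n, W_meas hT hB n, hn1, ?_, ?_, ?_⟩
  · rw [hm, Nat.succ_eq_add_one, W_succ]
    have := measureReal_union_le (μ := μ) (W T B m) (T^[m + 1] ⁻¹' B)
    rw [measureReal_preimage_iterate hT hB] at this
    linarith
  · refine le_trans (measureReal_mono ?_) hB1
    rintro x ⟨⟨j, hj, hx⟩, h2⟩
    by_contra hxB
    apply h2
    rcases Nat.eq_zero_or_pos j with h0 | h0
    · subst h0; exact absurd (by simpa using hx) hxB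
    · refine ⟨j - 1, by omega, ?_⟩
      rw [← Function.iterate_succ_apply, Nat.succ_eq_add_one, Nat.sub_add_cancel h0]
      exact hx
  · refine le_trans (measureReal_mono (?_ : _ ⊆ T^[n + 1] ⁻¹' B)) ?_
    · rintro x ⟨⟨j, hj, hx⟩, h2⟩
      rw [← Function.iterate_succ_apply, Nat.succ_eq_add_one] at hx
      by_contra hxB
      apply h2
      rcases Nat.lt_or_ge j n with h | h
      · exact ⟨j + 1, by omega, hx⟩
      · obtain rfl : j = n := by omega
        exact absurd hx hxB
    · rw [measureReal_preimage_iterate hT hB]; exact hB1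

end Pool.Agent.OverRec
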