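import Pool.Agent.MP_e8a8db_an.Orth

set_option autoImplicit false
open MeasureTheory Filter Topology

namespace Pool.Agent.OverRec

variable {X : Type} [MeasurableSpace X] {μ : Measure X} [IsProbabilityMeasure μ] {T : X → X}

/-- Autocorrelation. -/
noncomputable def cor (μ : Measure X) (T : X → X) (f : X → ℝ) (n : ℕ) : ℝ :=
  ∫ x, f x * f (T^[n] x) ∂μ

lemma cor_add (hT : MeasurePreserving T μ μ) {f g : X → ℝ} (hf : f ∈ V X) (hg : g ∈ V X) (w : ℝ)
    (n : ℕ) :
    cor μ T (f + w • g) n = cor μ T f n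
      + w * ((∫ x, f x * g (T^[n] x) ∂μ) + ∫ x, g x * f (T^[n] x) ∂μ) + w ^ 2 * cor μ T g n := by
  have i1 := V_integrable_mul (μ := μ) hT hf hf n
  have i2 := V_integrable_mul (μ := μ) hT hf hg n
  have i3 := V_integrable_mul (μ := μ) hT hg hf n
  have i4 := V_integrable_mul (μ := μ) hT hg hg n
  have j1 : Integrable (fun x => w * (f x * g (T^[n] x) + g x * f (T^[n] x))) μ :=
    (i2.add i3).const_mul w
  have j2 : Integrable (fun x => f x * f (T^[n] x)
      + w * (f x * g (T^[n] x) + g x * f (T^[n] x))) μ := i1.add j1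
  have j3 : Integrable (fun x => w ^ 2 * (g x * g (T^[n] x))) μ := i4.const_mul (w ^ 2)
  unfold cor
  rw [← integral_add i2 i3, ← integral_const_mul, ← integral_const_mul,
    ← integral_add i1 j1, ← integral_add j2 j3]
  congr 1
  funext x
  simp only [Pi.add_apply, Pi.smul_apply, smul_eq_mul]
  ring

lemma one_mem_V : (fun _ => (1 : ℝ)) ∈ V X := by
  have := ind_mem_V (X := X) MeasurableSet.univ
  simpa using this

/-- The centred indicator function. -/
noncomputable def cind (μ : Measure X) (A : Set X) : X → ℝ :=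
  A.indicator (fun _ => (1 : ℝ)) + (-(μ.real A)) • (fun _ => (1 : ℝ))

lemma cind_mem {A : Set X} (hA : MeasurableSet A) : cind μ A ∈ V X :=
  (V X).add_mem (ind_mem_V hA) ((V X).smul_mem _ one_mem_V)

lemma cind_apply (A : Set X) (x : X) :
    cind μ A x = A.indicator (fun _ => (1 : ℝ)) x - μ.real A := by
  simp [cind, sub_eq_add_neg]

lemma cind_integral {A : Set X} (hA : MeasurableSet A) : ∫ x, cind μ A x ∂μ = 0 := by
  simp_rw [cind_apply]
  rw [integral_sub (V_integrable (ind_mem_V hA)) (integrable_const _), integral_ind hA]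
  simp

lemma cind_bound (A : Set X) (x : X) : |cind μ A x| ≤ 1 := by
  have h0 : 0 ≤ μ.real A := measureReal_nonneg
  have h1 : μ.real A ≤ 1 := measureReal_le_one
  rw [cind_apply, abs_le]
  by_cases hx : x ∈ A <;> simp only [hx, Set.indicator_of_mem, Set.indicator_of_notMem,
    not_false_eq_true] <;> constructor <;> linarith

lemma cind_cor (hT : MeasurePreserving T μ μ) {A : Set X} (hA : MeasurableSet A) (n : ℕ) :
    cor μ T (cind μ A) n = cor μ T (A.indicator (fun _ => (1 : ℝ))) n - μ.real A ^ 2 := by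
  have h := cor_add (μ := μ) hT (ind_mem_V hA) one_mem_V (-(μ.real A)) n
  unfold cind
  rw [h]
  have h1 : ∫ x, A.indicator (fun _ => (1 : ℝ)) x * 1 ∂μ = μ.real A := by
    simp_rw [mul_one]; exact integral_ind hA
  have h2 : ∫ x, 1 * A.indicator (fun _ => (1 : ℝ)) (T^[n] x) ∂μ = μ.real A := by
    simp_rw [one_mul]
    rw [integral_comp_iter hT (h := A.indicator (fun _ => (1 : ℝ)))
      (measurable_const.indicator hA) n]
    exact integral_ind hA
  have h3 : cor μ T (fun _ => (1 : ℝ)) n = 1 := by simp [cor]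
  rw [h1, h2, h3]
  ring

lemma ind_cor_nonneg (A : Set X) (n : ℕ) :
    0 ≤ cor μ T (A.indicator (fun _ => (1 : ℝ))) n := by
  refine integral_nonneg fun x => mul_nonneg ?_ ?_ <;>
  exact Set.indicator_nonneg (fun _ _ => zero_le_one) _

lemma ind_cor_zero {A : Set X} (hA : MeasurableSet A) :
    cor μ T (A.indicator (fun _ => (1 : ℝ))) 0 = μ.real A := by
  rw [← integral_ind hA]
  unfold cor
  congr 1
  funext x
  by_cases hx : x ∈ A <;> simp [hx]

lemma cind_diff (hT : MeasurePreserving T μ μ) {A : Set X} (hA : MeasurableSet A) :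
    ∫ x, |cind μ A (T x) - cind μ A x| ∂μ = μ.real (A \ T ⁻¹' A) + μ.real (T ⁻¹' A \ A) := by
  have hTA : MeasurableSet (T ⁻¹' A) := hT.measurable hA
  rw [← integral_ind (hA.diff hTA), ← integral_ind (hTA.diff hA),
    ← integral_add (V_integrable (ind_mem_V (hA.diff hTA))) (V_integrable (ind_mem_V (hTA.diff hA)))]
  congr 1
  funext x
  rw [cind_apply, cind_apply]
  by_cases h1 : x ∈ A <;> by_cases h2 : T x ∈ A <;> simp [h1, h2, Set.indicator]
  rw [show -μ.real A - (1 - μ.real A) = -1 by ring]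
  simp

lemma cor_near_zero (hT : MeasurePreserving T μ μ) {g : X → ℝ} (hg : g ∈ V X)
    (hg1 : ∀ x, |g x| ≤ 1) (n : ℕ) :
    cor μ T g 0 - n * ∫ x, |g (T x) - g x| ∂μ ≤ cor μ T g n := by
  have hgm := V_meas hg
  have h1 := iter_diff hT hgm hg1 n
  have i0 := V_integrable_mul (μ := μ) hT hg hg 0
  have i1 := V_integrable_mul (μ := μ) hT hg hg n
  have hd : cor μ T g 0 - cor μ T g n ≤ ∫ x, |g (T^[n] x) - g x| ∂μ := by
    unfold cor
    rw [← integral_sub i0 i1]
    have hnm : Measurable (T^[n]) := hT.measurable.iterate n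
    refine integral_mono (i0.sub i1) ?_ fun x => ?_
    · refine (integrable_bm (h := fun x => g (T^[n] x) - g x) ((hgm.comp hnm).sub hgm) 2
        fun x => ?_).abs
      calc |g (T^[n] x) - g x| ≤ |g (T^[n] x)| + |g x| := abs_sub _ _
        _ ≤ 2 := by linarith [hg1 (T^[n] x), hg1 x]
    · simp only [Function.iterate_zero, id_eq]
      calc g x * g x - g x * g (T^[n] x) = g x * (g x - g (T^[n] x)) := by ring
        _ ≤ |g x * (g x - g (T^[n] x))| := le_abs_self _
        _ = |g x| * |g (T^[n] x) - g x| := by rw [abs_mul, abs_sub_comm]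
        _ ≤ |g (T^[n] x) - g x| := mul_le_of_le_one_left (abs_nonneg _) (hg1 x)
  linarith

/-- One step of the construction. -/
lemma step (hT : MeasurePreserving T μ μ) (hmix : Mix μ T)
    (hnt : ∃ A : Set X, MeasurableSet A ∧ 0 < μ A ∧ μ A < 1)
    {f : X → ℝ} (hf : f ∈ V X) (hf0 : ∫ x, f x ∂μ = 0) (N : ℕ) {w : ℝ} (hw : 0 < w)
    (hlow : ∀ n > N, -(52 / 1000) * w ^ 2 ≤ cor μ T f n) :
    ∃ (g : X → ℝ) (N' : ℕ), g ∈ V X ∧ (∀ x, |g x| ≤ 1) ∧ ∫ x, g x ∂μ = 0 ∧ N < N' ∧
      (∀ n ≤ N, cor μ T f n ≤ cor μ T (f + w • g) n) ∧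
      (∀ n, N < n → n ≤ N' → 2 / 100 * w ^ 2 ≤ cor μ T (f + w • g) n) ∧
      (∀ n, N' < n → -(13 / 1000) * w ^ 2 ≤ cor μ T (f + w • g) n) := by
  have hw2 : 0 < w ^ 2 := by positivity
  have hlim : Tendsto (fun n => cor μ T f n) atTop (𝓝 0) := by
    have := mix_V hT hmix hf hf
    rw [hf0, zero_mul] at this
    exact this
  have hev := hlim.eventually (Ioi_mem_nhds (by linarith : -(5 / 10000) * w ^ 2 < 0))
  obtain ⟨N1, hN1⟩ := eventually_atTop.1 hev
  set N' := max (N + 1) N1 with hN'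
  have hNN' : N < N' := by
    have := le_max_left (N + 1) N1
    omega
  have hN'1 : ∀ n, N' < n → -(5 / 10000) * w ^ 2 ≤ cor μ T f n := by
    intro n hn
    have : N1 ≤ n := (le_max_right _ _).trans hn.le
    exact (hN1 n this).le
  obtain ⟨δ, hδ, hor⟩ := near_orth hT hmix hf hf0 (ε := w / 10000) (by positivity)
  set η : ℝ := min (1 / 100) (min (δ / 2) (1 / (200 * (N' + 1)))) with hη
  have hη0 : 0 < η := by
    rw [hη]
    refine lt_min (by norm_num) (lt_min (by positivity) (by positivity))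
  have hη1 : η ≤ 1 / 100 := min_le_left _ _
  have hη2 : η ≤ δ / 2 := (min_le_right _ _).trans (min_le_left _ _)
  have hη3 : η ≤ 1 / (200 * (N' + 1)) := (min_le_right _ _).trans (min_le_right _ _)
  obtain ⟨A, hA, ha1, ha2, hA1, hA2⟩ := nearly_invariant hT hmix hnt hη0 hη1
  have hgV : cind μ A ∈ V X := cind_mem hA
  have hD : ∫ x, |cind μ A (T x) - cind μ A x| ∂μ ≤ 2 * η := by
    rw [cind_diff hT hA]; linarith
  have hcross := hor (cind μ A) (V_meas hgV) (cind_bound A) (by linarith)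
  have hexp : ∀ n, cor μ T (f + w • cind μ A) n ≥ cor μ T f n - 2 / 10000 * w ^ 2
      + w ^ 2 * cor μ T (cind μ A) n := by
    intro n
    rw [cor_add hT hf hgV w n]
    obtain ⟨h1, h2⟩ := hcross n
    have h1' := (abs_le.1 h1).1
    have h2' := (abs_le.1 h2).1
    have : w * ((∫ x, f x * cind μ A (T^[n] x) ∂μ) + ∫ x, cind μ A x * f (T^[n] x) ∂μ)
        ≥ w * (-(w / 10000) + -(w / 10000)) :=
      mul_le_mul_of_nonneg_left (by linarith) hw.le
    nlinarith
  have hsmall : ∀ n, -(121 / 10000) ≤ cor μ T (cind μ A) n := by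
    intro n
    rw [cind_cor hT hA]
    have := ind_cor_nonneg (μ := μ) (T := T) A n
    nlinarith
  have hbig : ∀ n ≤ N', 8 / 100 ≤ cor μ T (cind μ A) n := by
    intro n hn
    have h1 := cor_near_zero (μ := μ) hT hgV (cind_bound A) n
    rw [cind_cor hT hA, ind_cor_zero hA] at h1
    have h2 : (n : ℝ) * ∫ x, |cind μ A (T x) - cind μ A x| ∂μ ≤ 1 / 100 := by
      have h3 : (n : ℝ) ≤ N' + 1 := by
        have : (n : ℝ) ≤ N' := by exact_mod_cast hn
        linarith
      calc (n : ℝ) * ∫ x, |cind μ A (T x) - cind μ A x| ∂μ ≤ (N' + 1) * (2 * (1 / (200 * (N' + 1)))) := by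
            refine mul_le_mul h3 (hD.trans (by linarith)) (integral_nonneg fun x => abs_nonneg _)
              (by positivity)
        _ = 1 / 100 := by field_simp; norm_num
    nlinarith
  refine ⟨cind μ A, N', hgV, cind_bound A, cind_integral hA, hNN', ?_, ?_, ?_⟩
  · intro n hn
    have h1 := hexp n
    have h2 := hbig n (hn.trans hNN'.le)
    nlinarith
  · intro n hn1 hn2
    have h1 := hexp n
    have h2 := hbig n hn2
    have h3 := hlow n hn1
    nlinarith
  · intro n hn
    have h1 := hexp n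
    have h2 := hsmall n
    have h3 := hN'1 n hn
    nlinarith

end Pool.Agent.OverRec
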